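import Pool.Agent.helper76.LP.Defs

/-! # Project QR, module RP: the distribution relation on units -/

namespace Pool.Agent.helper76.LP

open Finset

/-- extension by zero of a function on units -/
noncomputable def RP_nu (e : ℕ) (ν : (ZMod e)ˣ → ℤ) (x : ZMod e) : ℤ := by
  classical exact if h : IsUnit x then ν h.unit else 0

lemma RP_nu_unit (e : ℕ) (ν : (ZMod e)ˣ → ℤ) (y : (ZMod e)ˣ) :
    RP_nu e ν (y : ZMod e) = ν y := by
  classical
  unfold RP_nu
  rw [dif_pos y.isUnit]
  congr 1
  ext
  simp

lemma RP_nu_not (e : ℕ) (ν : (ZMod e)ˣ → ℤ) (x : ZMod e) (h : ¬ IsUnit x) :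
    RP_nu e ν x = 0 := by
  classical
  unfold RP_nu
  rw [dif_neg h]

/-- sums over a ring, reduced to sums over units when the terms vanish off the units -/
lemma RP_sum_units {A : Type*} [AddCommGroup A] (d : ℕ) [NeZero d] (g : ZMod d → A)
    (hg : ∀ x, ¬ IsUnit x → g x = 0) : ∑ z : (ZMod d)ˣ, g (z : ZMod d) = ∑ x, g x := by
  apply Finset.sum_of_injOn (fun z : (ZMod d)ˣ => (z : ZMod d))
  · intro a _ b _ h
    exact Units.ext h
  · intro a _; simp
  · intro x _ hx
    apply hg
    rintro ⟨u, rfl⟩
    exact hx ⟨u, by simp, rfl⟩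
  · intro a _; rfl

/-- fibration of `ZMod d` over `ZMod e` -/
lemma RP_fib {A : Type*} [AddCommGroup A] (d e p : ℕ) [NeZero d] [NeZero e] (he : e * p = d)
    (g : ZMod d → A) :
    ∑ w, g w = ∑ y : ZMod e, ∑ j ∈ range p, g ((y.val + e * j : ℕ) : ZMod d) := by
  have he0 : 0 < e := Nat.pos_of_ne_zero (NeZero.ne e)
  have hlt : ∀ (y : ZMod e) (j : ℕ), j < p → y.val + e * j < d := by
    intro y j hj
    have h1 := ZMod.val_lt y
    have h2 : e * (j + 1) ≤ e * p := Nat.mul_le_mul_left _ hj
    rw [← he]
    nlinarith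
  rw [← Finset.sum_product']
  symm
  apply Finset.sum_of_injOn (fun q : ZMod e × ℕ => ((q.1.val + e * q.2 : ℕ) : ZMod d))
  · rintro ⟨y, j⟩ hj ⟨y', j'⟩ hj' h
    simp only [Finset.coe_product, Set.mem_prod, Finset.mem_coe, Finset.mem_range] at hj hj'
    have h1 := congrArg ZMod.val h
    simp only at h1
    rw [ZMod.val_natCast, ZMod.val_natCast, Nat.mod_eq_of_lt (hlt y j hj.2),
      Nat.mod_eq_of_lt (hlt y' j' hj'.2)] at h1
    have h2 : y.val = y'.val := by
      have h3 := congrArg (· % e) h1
      simp only [Nat.add_mul_mod_self_left] at h3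
      rwa [Nat.mod_eq_of_lt (ZMod.val_lt y), Nat.mod_eq_of_lt (ZMod.val_lt y')] at h3
    have h4 : y = y' := ZMod.val_injective e h2
    rw [h2] at h1
    have h5 : e * j = e * j' := by omega
    have h6 : j = j' := Nat.eq_of_mul_eq_mul_left he0 h5
    rw [h4, h6]
  · intro a _; simp
  · intro w _ hw
    exfalso
    apply hw
    refine ⟨(((w.val : ℕ) : ZMod e), w.val / e), ?_, ?_⟩
    · simp only [Finset.coe_product, Set.mem_prod, Finset.mem_coe, Finset.mem_range,
        Finset.mem_univ, true_and]
      apply Nat.div_lt_of_lt_mul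
      rw [he]
      exact ZMod.val_lt w
    · simp only
      rw [ZMod.val_natCast, Nat.mod_add_div, ZMod.natCast_zmod_val]
  · intro a _; rfl

lemma RP_isUnit_iff (d : ℕ) [NeZero d] (x : ZMod d) : IsUnit x ↔ Nat.Coprime x.val d := by
  conv_lhs => rw [← ZMod.natCast_zmod_val x]
  exact ZMod.isUnit_iff_coprime _ _

theorem dist_units {A : Type*} [AddCommGroup A] (m : ℕ) [NeZero m] (φ : ZMod m → A) (p : ℕ)
    (hp : p.Prime) (h : A)
    (hφ : ∀ x, ∑ j ∈ range p, φ (x + ((j * (m / p) : ℕ) : ZMod m)) = φ ((p : ZMod m) * x) + h)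
    (d e : ℕ) [NeZero d] [NeZero e] (hd : d ∣ m) (he : e * p = d) (ν : (ZMod e)ˣ → ℤ) :
    ∑ z : (ZMod d)ˣ, ν (ZMod.unitsMap (Dvd.intro p he) z) • φ (emb d m (z : ZMod d)) =
      ∑ y : (ZMod e)ˣ, Rop p e ν y • φ (emb e m (y : ZMod e)) + (∑ y, ν y) • h := by
  classical
  have hed : e ∣ d := Dvd.intro p he
  have hm0 : 0 < m := Nat.pos_of_ne_zero (NeZero.ne m)
  have he0 : 0 < e := Nat.pos_of_ne_zero (NeZero.ne e)
  have hp0 : 0 < p := hp.pos
  obtain ⟨c, hc⟩ := hd
  have hd0 : 0 < d := Nat.pos_of_ne_zero (NeZero.ne d)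
  have hmd : m / d = c := by rw [hc]; exact Nat.mul_div_cancel_left _ hd0
  have hmp : m / p = e * c := by
    rw [hc, ← he]
    rw [show e * p * c = p * (e * c) by ring]
    exact Nat.mul_div_cancel_left _ hp0
  have hme : m / e = p * c := by
    rw [hc, ← he, mul_assoc]
    exact Nat.mul_div_cancel_left _ he0
  have hdm : d ∣ m := ⟨c, hc⟩
  have hem : e ∣ m := hed.trans hdm
  -- the full sum
  have hA : ∑ w : ZMod d, RP_nu e ν (ZMod.castHom hed (ZMod e) w) • φ (emb d m w) =
      ∑ y : (ZMod e)ˣ, ν y • (φ (emb e m (y : ZMod e)) + h) := by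
    rw [RP_fib d e p he]
    have h1 : ∀ y : ZMod e, ∑ j ∈ range p, RP_nu e ν (ZMod.castHom hed (ZMod e)
        ((y.val + e * j : ℕ) : ZMod d)) • φ (emb d m ((y.val + e * j : ℕ) : ZMod d)) =
        RP_nu e ν y • (φ (emb e m y) + h) := by
      intro y
      have h2 : ∀ j ∈ range p, RP_nu e ν (ZMod.castHom hed (ZMod e)
          ((y.val + e * j : ℕ) : ZMod d)) • φ (emb d m ((y.val + e * j : ℕ) : ZMod d)) =
          RP_nu e ν y • φ (((y.val * c : ℕ) : ZMod m) + ((j * (m / p) : ℕ) : ZMod m)) := by
        intro j _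
        congr 2
        · rw [map_natCast]
          push_cast
          rw [ZMod.natCast_zmod_val, ZMod.natCast_self, zero_mul, add_zero]
        · rw [emb_natCast hdm, hmd, hmp]
          push_cast
          ring
      rw [Finset.sum_congr rfl h2, ← Finset.smul_sum, hφ]
      congr 3
      unfold emb
      rw [hme]
      push_cast
      ring
    rw [Finset.sum_congr rfl fun y _ => h1 y]
    rw [← RP_sum_units e (fun y => RP_nu e ν y • (φ (emb e m y) + h))]
    · exact Finset.sum_congr rfl fun y _ => by rw [RP_nu_unit]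
    · intro x hx
      rw [RP_nu_not e ν x hx, zero_smul]
  -- splitting
  have hB : ∑ w : ZMod d, RP_nu e ν (ZMod.castHom hed (ZMod e) w) • φ (emb d m w) =
      ∑ z : (ZMod d)ˣ, ν (ZMod.unitsMap hed z) • φ (emb d m (z : ZMod d)) +
      ∑ w : ZMod d, (if IsUnit w then 0 else
        RP_nu e ν (ZMod.castHom hed (ZMod e) w) • φ (emb d m w)) := by
    have h1 : ∑ z : (ZMod d)ˣ, ν (ZMod.unitsMap hed z) • φ (emb d m (z : ZMod d)) =
        ∑ w : ZMod d, (if IsUnit w then
          RP_nu e ν (ZMod.castHom hed (ZMod e) w) • φ (emb d m w) else 0) := by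
      rw [← RP_sum_units d (fun w => if IsUnit w then
          RP_nu e ν (ZMod.castHom hed (ZMod e) w) • φ (emb d m w) else 0)]
      · apply Finset.sum_congr rfl
        intro z _
        rw [if_pos z.isUnit]
        congr 1
        exact (RP_nu_unit e ν (ZMod.unitsMap hed z)).symm
      · intro x hx
        rw [if_neg hx]
    rw [h1, ← Finset.sum_add_distrib]
    apply Finset.sum_congr rfl
    intro w _
    split_ifs <;> simp
  -- the nonunits
  have hC : ∑ w : ZMod d, (if IsUnit w then 0 else
        RP_nu e ν (ZMod.castHom hed (ZMod e) w) • φ (emb d m w)) =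
      ∑ y : (ZMod e)ˣ, (if hh : p.Coprime e then ν (ZMod.unitOfCoprime p hh * y) else 0) •
        φ (emb e m (y : ZMod e)) := by
    by_cases hpe : p.Coprime e
    · symm
      apply Finset.sum_of_injOn (fun y : (ZMod e)ˣ => (((p * (y : ZMod e).val : ℕ)) : ZMod d))
      · intro y _ y' _ hyy
        have h1 := congrArg ZMod.val hyy
        simp only at h1
        have hl : ∀ y : (ZMod e)ˣ, p * (y : ZMod e).val < d := by
          intro y
          rw [← he, mul_comm e p]
          exact Nat.mul_lt_mul_of_pos_left (ZMod.val_lt _) hp0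
        rw [ZMod.val_natCast, ZMod.val_natCast, Nat.mod_eq_of_lt (hl y),
          Nat.mod_eq_of_lt (hl y')] at h1
        have h2 := Nat.eq_of_mul_eq_mul_left hp0 h1
        exact Units.ext (ZMod.val_injective e h2)
      · intro a _; simp
      · intro w _ hw
        by_cases hu : IsUnit w
        · rw [if_pos hu]
        · rw [if_neg hu]
          by_cases hu' : IsUnit (ZMod.castHom hed (ZMod e) w)
          · exfalso
            -- `w.val` is coprime to `e`, not to `d`
            have h1 : ZMod.castHom hed (ZMod e) w = ((w.val : ℕ) : ZMod e) := by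
              conv_lhs => rw [← ZMod.natCast_zmod_val w]
              exact map_natCast _ _
            have h2 : Nat.Coprime w.val e := by
              rw [h1] at hu'
              exact (ZMod.isUnit_iff_coprime _ _).1 hu'
            have h3 : ¬ Nat.Coprime w.val d := fun h => hu ((RP_isUnit_iff d w).2 h)
            have h4 : p ∣ w.val := by
              by_contra hn
              apply h3
              have h6 := Nat.Coprime.mul_right h2 ((Nat.Prime.coprime_iff_not_dvd hp).2 hn).symm
              rwa [he] at h6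
            obtain ⟨k, hk⟩ := h4
            have hke : k < e := by
              have h5 := ZMod.val_lt w
              rw [hk, ← he, mul_comm e p] at h5
              exact Nat.lt_of_mul_lt_mul_left h5
            have hkc : Nat.Coprime k e := by
              rw [hk] at h2
              exact Nat.Coprime.coprime_mul_left h2
            apply hw
            refine ⟨ZMod.unitOfCoprime k hkc, by simp, ?_⟩
            simp only [ZMod.coe_unitOfCoprime]
            rw [ZMod.val_natCast, Nat.mod_eq_of_lt hke, ← hk, ZMod.natCast_zmod_val]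
          · rw [RP_nu_not e ν _ hu', zero_smul]
      · intro y _
        have hnu : ¬ IsUnit (((p * (y : ZMod e).val : ℕ)) : ZMod d) := by
          rw [ZMod.isUnit_iff_coprime]
          intro hc'
          have h1 : p ∣ Nat.gcd (p * (y : ZMod e).val) d :=
            Nat.dvd_gcd (Dvd.intro _ rfl) (Dvd.intro_left e he)
          rw [Nat.Coprime] at hc'
          rw [hc'] at h1
          exact hp.one_lt.ne' (Nat.dvd_one.1 h1)
        rw [if_neg hnu, dif_pos hpe]
        congr 1
        · rw [← RP_nu_unit e ν (ZMod.unitOfCoprime p hpe * y)]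
          congr 1
          rw [map_natCast]
          push_cast
          rw [ZMod.natCast_zmod_val]
          rfl
        · congr 1
          rw [emb_natCast hdm, hmd]
          unfold emb
          rw [hme]
          push_cast
          ring
    · simp only [dif_neg hpe, zero_smul, Finset.sum_const_zero]
      apply Finset.sum_eq_zero
      intro w _
      split_ifs with hu
      · rfl
      · have hpe' : p ∣ e := by
          by_contra hn
          exact hpe ((Nat.Prime.coprime_iff_not_dvd hp).2 hn)
        have hu' : ¬ IsUnit (ZMod.castHom hed (ZMod e) w) := by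
          intro hu'
          apply hu
          have h1 : ZMod.castHom hed (ZMod e) w = ((w.val : ℕ) : ZMod e) := by
            conv_lhs => rw [← ZMod.natCast_zmod_val w]
            exact map_natCast _ _
          have h2 : Nat.Coprime w.val e := by
            rw [h1] at hu'
            exact (ZMod.isUnit_iff_coprime _ _).1 hu'
          rw [RP_isUnit_iff]
          have h6 := Nat.Coprime.mul_right h2 (Nat.Coprime.coprime_dvd_right hpe' h2)
          rwa [he] at h6
        rw [RP_nu_not e ν _ hu', zero_smul]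
  rw [hC] at hB
  rw [hA] at hB
  have hD : ∑ y : (ZMod e)ˣ, Rop p e ν y • φ (emb e m (y : ZMod e)) =
      ∑ y : (ZMod e)ˣ, ν y • φ (emb e m (y : ZMod e)) -
      ∑ y : (ZMod e)ˣ, (if hh : p.Coprime e then ν (ZMod.unitOfCoprime p hh * y) else 0) •
        φ (emb e m (y : ZMod e)) := by
    rw [← Finset.sum_sub_distrib]
    apply Finset.sum_congr rfl
    intro y _
    unfold Rop
    rw [sub_smul]
  rw [hD]
  simp only [smul_add, Finset.sum_add_distrib, ← Finset.sum_smul] at hB
  rw [eq_comm, ← sub_eq_iff_eq_add] at hB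
  rw [← hB]
  abel

end Pool.Agent.helper76.LP
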