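import Mathlib

/-! # Project QR, module ML: majority -/

namespace Pool.Agent.helper76.LP

open Finset

theorem majority {Z α : Type*} [Fintype Z] [DecidableEq α] (φ : Z → α) (s : Z → ℕ) (l : ℕ)
    (h1 : ∀ z z', φ z ≠ φ z' → l ≤ s z + s z') (h2 : 2 * ∑ z, s z < Fintype.card Z * l) :
    ∃ v : α, Fintype.card Z < 2 * (univ.filter (fun z => φ z = v)).card := by
  classical
  by_contra hcon
  push Not at hcon
  -- some `z` has `2 s z < l`
  have hex : ∃ z, 2 * s z < l := by
    by_contra hn
    push Not at hn
    have : Fintype.card Z * l ≤ 2 * ∑ z, s z := by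
      rw [Finset.mul_sum]
      calc Fintype.card Z * l = ∑ _z : Z, l := by simp
        _ ≤ ∑ z, 2 * s z := Finset.sum_le_sum fun z _ => hn z
    omega
  -- choose the minimum
  have hne : (univ : Finset Z).Nonempty := by
    obtain ⟨z, _⟩ := hex
    exact ⟨z, Finset.mem_univ _⟩
  obtain ⟨a, _, ha⟩ := Finset.exists_min_image univ s hne
  have haA : 2 * s a < l := by
    obtain ⟨z, hz⟩ := hex
    have := ha z (Finset.mem_univ _)
    omega
  have hv := hcon (φ a)
  set n := (univ.filter (fun z => φ z = φ a)).card with hn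
  have hsum : (∑ z, s z) = (∑ z ∈ univ.filter (fun z => φ z = φ a), s z) +
      ∑ z ∈ univ.filter (fun z => ¬ φ z = φ a), s z :=
    (Finset.sum_filter_add_sum_filter_not univ _ _).symm
  have h3 : n * s a ≤ ∑ z ∈ univ.filter (fun z => φ z = φ a), s z := by
    calc n * s a = ∑ _z ∈ univ.filter (fun z => φ z = φ a), s a := by simp [hn]
      _ ≤ _ := Finset.sum_le_sum fun z _ => ha z (Finset.mem_univ _)
  have h4 : (univ.filter (fun z => ¬ φ z = φ a)).card * (l - s a) ≤
      ∑ z ∈ univ.filter (fun z => ¬ φ z = φ a), s z := by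
    calc (univ.filter (fun z => ¬ φ z = φ a)).card * (l - s a) =
        ∑ _z ∈ univ.filter (fun z => ¬ φ z = φ a), (l - s a) := by simp
      _ ≤ _ := by
        apply Finset.sum_le_sum
        intro z hz
        have := h1 z a (Finset.mem_filter.1 hz).2
        omega
  have h5 : n + (univ.filter (fun z => ¬ φ z = φ a)).card = Fintype.card Z := by
    rw [hn]
    exact Finset.card_filter_add_card_filter_not _
  set k := (univ.filter (fun z => ¬ φ z = φ a)).card with hk
  obtain ⟨b, hb⟩ : ∃ b, l = 2 * s a + b := ⟨l - 2 * s a, by omega⟩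
  have h6 : l - s a = s a + b := by omega
  rw [h6] at h4
  have h7 : n ≤ k := by omega
  have h8 : Fintype.card Z * l ≤ 2 * (n * s a + k * (s a + b)) := by
    rw [← h5, hb]
    nlinarith
  omega

end Pool.Agent.helper76.LP
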